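import Mathlib

open Set Filter Topology MeasureTheory ComplexConjugate

namespace Pool.Agent.Results.MP_d393fc_an.ProductConverges

/-- The standing assumptions on `ω` (all `Delta_k`, `k ≥ 1`, are finite: `k` is shifted by one). -/
structure IsWeight (ω : ℝ → ℝ) : Prop where
  cont : ContinuousOn ω (Ici 0)
  anti : AntitoneOn ω (Ici 0)
  pos : ∀ t, 0 ≤ t → 0 < ω t
  mom : ∀ k : ℕ, IntegrableOn (fun t => ω t * t ^ k) (Ioi 0)

/-- Condition (**), required for large `t` only. -/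
def Regular (ω : ℝ → ℝ) : Prop :=
  ∃ t0 : ℝ, 0 ≤ t0 ∧ (∀ t, t0 < t → DifferentiableAt ℝ ω t) ∧
    AntitoneOn (fun t => t * deriv ω t / ω t) (Ioi t0) ∧
    Tendsto (fun t => t * deriv ω t / ω t) atTop atBot

/-- `Δ_k = k ∫_0^∞ ω(t) t^{k-1} dt` (used for `k ≥ 1`). -/
noncomputable def Delta (ω : ℝ → ℝ) (k : ℕ) : ℝ := k * ∫ t in Ioi (0:ℝ), ω t * t ^ (k - 1)

/-- `L(r) = ∫_r^∞ ω(t) t^{-1} dt`. -/
noncomputable def L (ω : ℝ → ℝ) (r : ℝ) : ℝ := ∫ t in Ioi r, ω t / t

/-- `I_k(r) = ∫_0^r ω(t) t^{k-1} dt`. -/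
noncomputable def I (ω : ℝ → ℝ) (k : ℕ) (r : ℝ) : ℝ := ∫ t in Ioc (0:ℝ) r, ω t * t ^ (k - 1)

/-- `J_k(r) = ∫_r^∞ ω(t) t^{-k-1} dt`. -/
noncomputable def J (ω : ℝ → ℝ) (k : ℕ) (r : ℝ) : ℝ := ∫ t in Ioi r, ω t / t ^ (k + 1)

/-- `W_ω(z;a)`; the sum over `k ≥ 1` is written with `k + 1`, `k ≥ 0`. -/
noncomputable def W (ω : ℝ → ℝ) (z a : ℂ) : ℂ :=
  (L ω ‖a‖ : ℂ) - ∑' k : ℕ, (a⁻¹ ^ (k + 1) * (I ω (k + 1) ‖a‖ : ℂ) -
    (conj a)⁻¹ ^ (k + 1) * (J ω (k + 1) ‖a‖ : ℂ)) * (z ^ (k + 1) / (Delta ω (k + 1) : ℂ))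

/-- `A_ω(z;a) = (1 - z/a) e^{-W_ω(z;a)}`. -/
noncomputable def A (ω : ℝ → ℝ) (z a : ℂ) : ℂ := (1 - z / a) * Complex.exp (-W ω z a)

/-- tail moments -/
noncomputable def T (ω : ℝ → ℝ) (k : ℕ) (r : ℝ) : ℝ := ∫ t in Ioi r, ω t * t ^ k

variable {ω : ℝ → ℝ}

lemma intT (h : IsWeight ω) (k : ℕ) {r : ℝ} (hr : 0 ≤ r) :
    IntegrableOn (fun t => ω t * t ^ k) (Ioi r) :=
  (h.mom k).mono_set (Ioi_subset_Ioi hr)

lemma aes (h : IsWeight ω) {r : ℝ} (hr : 0 ≤ r) (g : ℝ → ℝ) (hg : ContinuousOn g (Ioi r)) :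
    AEStronglyMeasurable (fun t => ω t * g t) (volume.restrict (Ioi r)) :=
  ((h.cont.mono (fun t ht => hr.trans (le_of_lt ht))).mul hg).aestronglyMeasurable
    measurableSet_Ioi

lemma intJ (h : IsWeight ω) (k : ℕ) {r : ℝ} (hr : 0 < r) :
    IntegrableOn (fun t => ω t / t ^ (k + 1)) (Ioi r) := by
  have h1 : IntegrableOn (fun t => (r ^ (k + 1))⁻¹ * (ω t * t ^ 0)) (Ioi r) :=
    (intT h 0 hr.le).const_mul _
  refine Integrable.mono' h1 ?_ ?_
  · simp_rw [div_eq_mul_inv]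
    refine aes h hr.le _ ?_
    intro t ht
    exact (((continuousAt_id (x := t)).pow (k + 1)).inv₀ (pow_ne_zero _
      (hr.trans ht).ne')).continuousWithinAt
  · filter_upwards [ae_restrict_mem measurableSet_Ioi] with t ht
    have ht' : r < t := ht
    have ht0 : 0 < t := hr.trans ht'
    have hw := h.pos t ht0.le
    rw [Real.norm_eq_abs, abs_of_pos (by positivity), pow_zero, mul_one, div_eq_mul_inv, mul_comm]
    gcongr

lemma intL (h : IsWeight ω) {r : ℝ} (hr : 0 < r) :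
    IntegrableOn (fun t => ω t / t) (Ioi r) := by
  have := intJ h 0 hr
  simpa using this

lemma L_pos (h : IsWeight ω) {r : ℝ} (hr : 0 < r) : 0 < L ω r := by
  unfold L
  rw [setIntegral_pos_iff_support_of_nonneg_ae]
  · have : Ioi r ⊆ Function.support (fun t => ω t / t) ∩ Ioi r := by
      intro t ht
      have ht0 : 0 < t := hr.trans ht
      exact ⟨(div_pos (h.pos t ht0.le) ht0).ne', ht⟩
    exact lt_of_lt_of_le (by simp) (measure_mono this)
  · filter_upwards [ae_restrict_mem measurableSet_Ioi] with t ht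
    have ht0 : 0 < t := hr.trans ht
    exact (div_pos (h.pos t ht0.le) ht0).le
  · exact intL h hr

lemma T_pos (h : IsWeight ω) (k : ℕ) {r : ℝ} (hr : 0 ≤ r) : 0 < T ω k r := by
  unfold T
  rw [setIntegral_pos_iff_support_of_nonneg_ae]
  · have : Ioi r ⊆ Function.support (fun t => ω t * t ^ k) ∩ Ioi r := by
      intro t ht
      have ht0 : 0 < t := hr.trans_lt ht
      exact ⟨(mul_pos (h.pos t ht0.le) (pow_pos ht0 k)).ne', ht⟩
    exact lt_of_lt_of_le (by simp) (measure_mono this)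
  · filter_upwards [ae_restrict_mem measurableSet_Ioi] with t ht
    have ht0 : 0 < t := hr.trans_lt ht
    exact (mul_pos (h.pos t ht0.le) (pow_pos ht0 k)).le
  · exact intT h k hr

lemma L_anti (h : IsWeight ω) {r s : ℝ} (hr : 0 < r) (hrs : r ≤ s) : L ω s ≤ L ω r := by
  unfold L
  apply setIntegral_mono_set (intL h hr)
  · filter_upwards [ae_restrict_mem measurableSet_Ioi] with t ht
    have ht0 : 0 < t := hr.trans ht
    exact (div_pos (h.pos t ht0.le) ht0).le
  · exact (Ioi_subset_Ioi hrs).eventuallyLE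

lemma T_anti (h : IsWeight ω) (k : ℕ) {r s : ℝ} (hr : 0 ≤ r) (hrs : r ≤ s) :
    T ω k s ≤ T ω k r := by
  unfold T
  apply setIntegral_mono_set (intT h k hr)
  · filter_upwards [ae_restrict_mem measurableSet_Ioi] with t ht
    have ht0 : 0 < t := hr.trans_lt ht
    exact (mul_pos (h.pos t ht0.le) (pow_pos ht0 k)).le
  · exact (Ioi_subset_Ioi hrs).eventuallyLE

/-- multiplicative log-concavity -/
lemma logconc (h : IsWeight ω) {t0 : ℝ} (ht0 : 0 ≤ t0)
    (hd : ∀ t, t0 < t → DifferentiableAt ℝ ω t)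
    (ha : AntitoneOn (fun t => t * deriv ω t / ω t) (Ioi t0))
    {s t u : ℝ} (hs : t0 < s) (hst : s ≤ t) (hu : 1 ≤ u) :
    ω (t * u) * ω s ≤ ω (s * u) * ω t := by
  have hu0 : 0 < u := by linarith
  set f : ℝ → ℝ := fun x => Real.log (ω (x * u)) - Real.log (ω x) with hf
  have hder : ∀ x, t0 < x → HasDerivAt f
      (deriv ω (x * u) * u / ω (x * u) - deriv ω x / ω x) x := by
    intro x hx
    have hx0 : 0 < x := ht0.trans_lt hx
    have hxu : x ≤ x * u := le_mul_of_one_le_right hx0.le hu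
    have h1 : HasDerivAt (fun y => ω (y * u)) (deriv ω (x * u) * u) x := by
      have h2 : HasDerivAt ω (deriv ω (x * u)) (x * u) := (hd _ (hx.trans_le hxu)).hasDerivAt
      have h3 : HasDerivAt (fun y : ℝ => y * u) u x := by
        simpa using (hasDerivAt_id x).mul_const u
      exact h2.comp x h3
    exact (h1.log (h.pos _ (by positivity)).ne').sub
      ((hd x hx).hasDerivAt.log (h.pos x hx0.le).ne')
  have hanti : AntitoneOn f (Ioi t0) := by
    apply antitoneOn_of_deriv_nonpos (convex_Ioi t0)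
    · intro x hx
      exact (hder x hx).continuousAt.continuousWithinAt
    · intro x hx
      rw [interior_Ioi] at hx
      exact (hder x hx).differentiableAt.differentiableWithinAt
    · intro x hx
      rw [interior_Ioi] at hx
      rw [(hder x hx).deriv]
      have hx' : t0 < x := hx
      have hx0 : 0 < x := ht0.trans_lt hx'
      have hxu : x ≤ x * u := le_mul_of_one_le_right hx0.le hu
      have h1 := ha hx (show x * u ∈ Ioi t0 from hx'.trans_le hxu) hxu
      simp only at h1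
      have h2 : deriv ω (x * u) * u / ω (x * u) - deriv ω x / ω x =
          (x * u * deriv ω (x * u) / ω (x * u) - x * deriv ω x / ω x) / x := by
        field_simp
      rw [h2]
      apply div_nonpos_of_nonpos_of_nonneg _ hx0.le
      linarith
  have h1 := hanti (show s ∈ Ioi t0 from hs) (show t ∈ Ioi t0 from hs.trans_le hst) hst
  simp only [hf] at h1
  have hs0 : 0 < s := ht0.trans_lt hs
  have htt : 0 < t := hs0.trans_le hst
  have p1 := h.pos s hs0.le
  have p2 := h.pos t htt.le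
  have p3 := h.pos (s * u) (by positivity)
  have p4 := h.pos (t * u) (by positivity)
  have h2 : Real.log (ω (t * u) * ω s) ≤ Real.log (ω (s * u) * ω t) := by
    rw [Real.log_mul p4.ne' p1.ne', Real.log_mul p3.ne' p2.ne']
    linarith
  exact (Real.log_le_log_iff (by positivity) (by positivity)).1 h2

lemma scaleT (k : ℕ) {r : ℝ} (hr : 0 < r) :
    T ω k r = r ^ (k + 1) * ∫ u in Ioi (1:ℝ), ω (r * u) * u ^ k := by
  have h1 := integral_comp_mul_left_Ioi (fun t => ω t * t ^ k) 1 hr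
  rw [mul_one] at h1
  unfold T
  simp only [smul_eq_mul, mul_pow] at h1
  have h2 : ∫ x in Ioi (1:ℝ), ω (r * x) * (r ^ k * x ^ k) =
      r ^ k * ∫ u in Ioi (1:ℝ), ω (r * u) * u ^ k := by
    rw [← integral_const_mul]
    congr 1
    ext x
    ring
  rw [h2] at h1
  rw [pow_succ, mul_comm (r ^ k) r, mul_assoc, h1, ← mul_assoc, mul_inv_cancel₀ hr.ne', one_mul]

lemma scaleL {r : ℝ} (hr : 0 < r) :
    L ω r = ∫ u in Ioi (1:ℝ), ω (r * u) / u := by
  have h1 := integral_comp_mul_left_Ioi (fun t => ω t / t) 1 hr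
  rw [mul_one] at h1
  unfold L
  simp only [smul_eq_mul] at h1
  have h2 : ∫ x in Ioi (1:ℝ), ω (r * x) / (r * x) =
      r⁻¹ * ∫ u in Ioi (1:ℝ), ω (r * u) / u := by
    rw [← integral_const_mul]
    congr 1
    ext x
    rw [mul_comm r x, ← div_div, div_eq_inv_mul _ r, mul_comm x r]
  rw [h2] at h1
  have hr' : r⁻¹ ≠ 0 := inv_ne_zero hr.ne'
  exact (mul_left_cancel₀ hr' h1).symm

lemma intScaleT (h : IsWeight ω) (k : ℕ) {r : ℝ} (hr : 0 < r) :
    IntegrableOn (fun u => ω (r * u) * u ^ k) (Ioi 1) := by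
  have h1 := (integrableOn_Ioi_comp_mul_left_iff (fun t => ω t * t ^ k) 1 hr).2
    (by rw [mul_one]; exact intT h k hr.le)
  have h2 : (fun u => ω (r * u) * u ^ k) = fun u => (r ^ k)⁻¹ * (ω (r * u) * (r * u) ^ k) := by
    ext u
    rw [mul_pow]
    field_simp
  rw [h2]
  exact h1.const_mul _

lemma intScaleL (h : IsWeight ω) {r : ℝ} (hr : 0 < r) :
    IntegrableOn (fun u => ω (r * u) / u) (Ioi 1) := by
  have h1 := (integrableOn_Ioi_comp_mul_left_iff (fun t => ω t / t) 1 hr).2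
    (by rw [mul_one]; exact intL h hr)
  have h2 : (fun u => ω (r * u) / u) = fun u => r * (ω (r * u) / (r * u)) := by
    ext u
    rw [mul_comm r u, ← div_div]
    field_simp
  rw [h2]
  exact h1.const_mul _

/-- Key inequality (association): `T_k(r)/(r^{k+1} L(r))` is nonincreasing in `r`. -/
lemma key (h : IsWeight ω) {t0 : ℝ} (ht0 : 0 ≤ t0)
    (hd : ∀ t, t0 < t → DifferentiableAt ℝ ω t)
    (ha : AntitoneOn (fun t => t * deriv ω t / ω t) (Ioi t0))
    (k : ℕ) {y r : ℝ} (hy : t0 < y) (hyr : y ≤ r) :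
    T ω k r / r ^ (k + 1) * L ω y ≤ T ω k y / y ^ (k + 1) * L ω r := by
  have hy0 : 0 < y := ht0.trans_lt hy
  have hr0 : 0 < r := hy0.trans_le hyr
  rw [scaleT k hr0, scaleT k hy0, scaleL hr0, scaleL hy0, mul_div_cancel_left₀ _ (by positivity),
    mul_div_cancel_left₀ _ (by positivity)]
  set P := ∫ u in Ioi (1:ℝ), ω (y * u) * u ^ k with hP
  set Q := ∫ u in Ioi (1:ℝ), ω (y * u) / u with hQ
  set P' := ∫ u in Ioi (1:ℝ), ω (r * u) * u ^ k with hP'
  set Q' := ∫ u in Ioi (1:ℝ), ω (r * u) / u with hQ'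
  have hQpos : 0 < Q := by
    rw [hQ, ← scaleL hy0]
    exact L_pos h hy0
  have hPQ : Q ≤ P := by
    rw [hP, hQ]
    apply setIntegral_mono_on (intScaleL h hy0) (intScaleT h k hy0) measurableSet_Ioi
    intro u hu
    have hu1 : (1:ℝ) < u := hu
    have hw := h.pos (y * u) (by positivity)
    rw [div_eq_mul_inv]
    have h1 : u⁻¹ ≤ 1 := inv_le_one_of_one_le₀ hu1.le
    have h2 : 1 ≤ u ^ k := one_le_pow₀ hu1.le
    gcongr
    linarith
  set a := P / Q with hadef
  have ha1 : 1 ≤ a := by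
    rw [hadef, le_div_iff₀ hQpos]
    linarith
  set us := a ^ (1 / ((k:ℝ) + 1)) with hus
  have hus1 : 1 ≤ us := Real.one_le_rpow ha1 (by positivity)
  have husk : us ^ (k + 1) = a := by
    rw [hus, ← Real.rpow_natCast, ← Real.rpow_mul (by linarith)]
    push_cast
    rw [one_div, inv_mul_cancel₀ (by positivity), Real.rpow_one]
  set c := ω (r * us) / ω (y * us) with hc
  have hwyus := h.pos (y * us) (by positivity)
  have hpt : ∀ u ∈ Ioi (1:ℝ), ω (r * u) * u ^ k - a * (ω (r * u) / u) ≤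
      c * (ω (y * u) * u ^ k) - c * a * (ω (y * u) / u) := by
    intro u hu
    have hu1 : (1:ℝ) < u := hu
    have hu0 : 0 < u := by linarith
    have hw := h.pos (y * u) (by positivity)
    have e1 : ω (r * u) * u ^ k - a * (ω (r * u) / u) = ω (r * u) * (u ^ (k + 1) - a) / u := by
      field_simp
      ring
    have e2 : c * (ω (y * u) * u ^ k) - c * a * (ω (y * u) / u) =
        c * ω (y * u) * (u ^ (k + 1) - a) / u := by
      field_simp
      ring
    rw [e1, e2]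
    apply div_le_div_of_nonneg_right _ hu0.le
    rcases le_total us u with hle | hle
    · have h1 : 0 ≤ u ^ (k + 1) - a := by
        rw [← husk]
        have := pow_le_pow_left₀ (by linarith) hle (k + 1)
        linarith
      apply mul_le_mul_of_nonneg_right _ h1
      -- ω (r u) ω (y us) ≤ ω (r us) ω (y u)
      have h2 := logconc h ht0 hd ha (s := y * us) (t := r * us) (u := u / us)
        (hy.trans_le (le_mul_of_one_le_right hy0.le hus1))
        (by gcongr) (by rw [le_div_iff₀ (by linarith)]; linarith)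
      have e3 : r * us * (u / us) = r * u := by field_simp
      have e4 : y * us * (u / us) = y * u := by field_simp
      rw [e3, e4] at h2
      rw [hc, div_mul_eq_mul_div, le_div_iff₀ hwyus]
      linarith
    · have h1 : u ^ (k + 1) - a ≤ 0 := by
        rw [← husk]
        have := pow_le_pow_left₀ hu0.le hle (k + 1)
        linarith
      apply mul_le_mul_of_nonpos_right _ h1
      have h2 := logconc h ht0 hd ha (s := y * u) (t := r * u) (u := us / u)
        (hy.trans_le (le_mul_of_one_le_right hy0.le hu1.le))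
        (by gcongr) (by rw [le_div_iff₀ hu0]; linarith)
      have e3 : r * u * (us / u) = r * us := by field_simp
      have e4 : y * u * (us / u) = y * us := by field_simp
      rw [e3, e4] at h2
      rw [hc, div_mul_eq_mul_div, div_le_iff₀ hwyus]
      linarith
  have hint := setIntegral_mono_on
    ((intScaleT h k hr0).sub ((intScaleL h hr0).const_mul a))
    (((intScaleT h k hy0).const_mul c).sub ((intScaleL h hy0).const_mul (c * a)))
    measurableSet_Ioi hpt
  simp only [Pi.sub_apply] at hint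
  rw [integral_sub (intScaleT h k hr0) ((intScaleL h hr0).const_mul a),
    integral_sub ((intScaleT h k hy0).const_mul c) ((intScaleL h hy0).const_mul (c * a)),
    integral_const_mul, integral_const_mul, integral_const_mul] at hint
  have e5 : a * Q = P := by
    rw [hadef]
    field_simp
  have h6 : P' ≤ a * Q' := by
    have : c * P - c * a * Q = 0 := by rw [mul_assoc, e5]; ring
    linarith
  calc P' * Q ≤ a * Q' * Q := by gcongr
    _ = P * Q' := by rw [← e5]; ring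


lemma Delta_eq (h : IsWeight ω) (k : ℕ) {r : ℝ} (hr : 0 ≤ r) :
    Delta ω (k + 1) = ((k:ℝ) + 1) * (I ω (k + 1) r + T ω k r) := by
  unfold Delta I T
  have h1 : Ioc 0 r ∪ Ioi r = Ioi 0 := Ioc_union_Ioi_eq_Ioi hr
  have h2 : IntegrableOn (fun t => ω t * t ^ k) (Ioc 0 r) :=
    (h.mom k).mono_set (fun t ht => ht.1)
  rw [← h1]
  simp only [Nat.add_sub_cancel]
  rw [setIntegral_union (Ioc_disjoint_Ioi le_rfl) measurableSet_Ioi h2 (intT h k hr)]
  push_cast
  ring

lemma I_nonneg (h : IsWeight ω) (k : ℕ) (r : ℝ) : 0 ≤ I ω (k + 1) r := by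
  unfold I
  apply setIntegral_nonneg measurableSet_Ioc
  intro t ht
  exact mul_nonneg (h.pos t ht.1.le).le (pow_nonneg ht.1.le _)

lemma J_nonneg (h : IsWeight ω) (k : ℕ) {r : ℝ} (hr : 0 < r) : 0 ≤ J ω (k + 1) r := by
  unfold J
  apply setIntegral_nonneg measurableSet_Ioi
  intro t ht
  have ht0 : 0 < t := hr.trans ht
  exact div_nonneg (h.pos t ht0.le).le (pow_nonneg ht0.le _)

lemma J_le_T (h : IsWeight ω) (k : ℕ) {r : ℝ} (hr : 1 ≤ r) : J ω (k + 1) r ≤ T ω k r := by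
  unfold J T
  have hr0 : 0 < r := by linarith
  apply setIntegral_mono_on (intJ h (k + 1) hr0) (intT h k hr0.le) measurableSet_Ioi
  intro t ht
  have ht1 : 1 ≤ t := hr.trans (le_of_lt ht)
  have hw := (h.pos t (by linarith)).le
  have h1 : t ^ k * t ^ (k + 1 + 1) ≥ 1 := by
    rw [← pow_add]
    exact one_le_pow₀ ht1
  rw [div_le_iff₀ (by positivity), mul_assoc]
  nlinarith

lemma J_le_L (h : IsWeight ω) (k : ℕ) {r : ℝ} (hr : 0 < r) :
    J ω (k + 1) r ≤ L ω r / r ^ (k + 1) := by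
  unfold J L
  rw [div_eq_inv_mul, ← integral_const_mul]
  apply setIntegral_mono_on (intJ h (k + 1) hr) ((intL h hr).const_mul _) measurableSet_Ioi
  intro t ht
  have ht0 : 0 < t := hr.trans ht
  have hw := (h.pos t ht0.le)
  have h1 : ω t / t ^ (k + 1 + 1) = (t ^ (k + 1))⁻¹ * (ω t / t) := by
    field_simp
    ring
  rw [h1]
  have h2 : r ≤ t := le_of_lt ht
  gcongr

lemma Delta_ge (h : IsWeight ω) (k : ℕ) {y : ℝ} (hy : 0 ≤ y) : T ω k y ≤ Delta ω (k + 1) := by
  rw [Delta_eq h k hy]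
  have h1 := I_nonneg h k y
  have h2 := T_pos h k hy
  have h3 : (0:ℝ) ≤ k := Nat.cast_nonneg k
  nlinarith

lemma Delta_pos (h : IsWeight ω) (k : ℕ) : 0 < Delta ω (k + 1) :=
  (T_pos h k le_rfl).trans_le (Delta_ge h k le_rfl)

lemma T_ge (h : IsWeight ω) (k : ℕ) {y : ℝ} (hy : 0 ≤ y) : ω (y + 1) * y ^ k ≤ T ω k y := by
  unfold T
  have h1 : ∫ t in Ioc y (y + 1), ω (y + 1) * y ^ k ≤ ∫ t in Ioc y (y + 1), ω t * t ^ k := by
    apply setIntegral_mono_on (integrableOn_const (by simp))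
      ((intT h k hy).mono_set Ioc_subset_Ioi_self) measurableSet_Ioc
    intro t ht
    have ht0 : 0 ≤ t := hy.trans ht.1.le
    have hw : ω (y + 1) ≤ ω t := h.anti ht0 (show (0:ℝ) ≤ y + 1 by linarith) ht.2
    have hw0 := (h.pos t ht0).le
    have := ht.1.le
    gcongr
  have h2 : ∫ t in Ioc y (y + 1), ω (y + 1) * y ^ k = ω (y + 1) * y ^ k := by
    simp
  rw [h2] at h1
  refine h1.trans ?_
  apply setIntegral_mono_set (intT h k hy)
  · filter_upwards [ae_restrict_mem measurableSet_Ioi] with t ht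
    have ht0 : 0 < t := hy.trans_lt ht
    exact (mul_pos (h.pos t ht0.le) (pow_pos ht0 k)).le
  · exact (Ioc_subset_Ioi_self).eventuallyLE

/-- the coefficient term of the series in `W` -/
noncomputable def term (ω : ℝ → ℝ) (a z : ℂ) (k : ℕ) : ℂ :=
  (a⁻¹ ^ (k + 1) * (I ω (k + 1) ‖a‖ : ℂ) -
    (conj a)⁻¹ ^ (k + 1) * (J ω (k + 1) ‖a‖ : ℂ)) * (z ^ (k + 1) / (Delta ω (k + 1) : ℂ))

lemma I_le (h : IsWeight ω) (k : ℕ) {r : ℝ} (hr : 0 ≤ r) : I ω (k + 1) r ≤ ω 0 * r ^ (k + 1) := by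
  unfold I
  have h1 : ∫ t in Ioc 0 r, ω t * t ^ (k + 1 - 1) ≤ ∫ t in Ioc 0 r, ω 0 * r ^ k := by
    apply setIntegral_mono_on
      ((h.mom k).mono_set (fun t ht => ht.1)) (integrableOn_const (by simp)) measurableSet_Ioc
    intro t ht
    have hw : ω t ≤ ω 0 := h.anti self_mem_Ici (show (0:ℝ) ≤ t from ht.1.le)
      ht.1.le
    have hw0 := (h.pos 0 le_rfl).le
    have h3 := ht.1.le
    have h4 := ht.2
    change ω t * t ^ k ≤ ω 0 * r ^ k
    gcongr
  refine h1.trans ?_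
  simp only [setIntegral_const, Real.volume_real_Ioc, sub_zero, smul_eq_mul]
  rw [max_eq_left hr, pow_succ]
  linarith

lemma norm_term_le (h : IsWeight ω) {a : ℂ} (ha : a ≠ 0) {B : ℝ} (hB : 0 < B) {z : ℂ}
    (hz : ‖z‖ ≤ B) (k : ℕ) {y : ℝ} (hy0 : 0 < y) (hy : 2 * B * (1 + (‖a‖ ^ 2)⁻¹) ≤ y) :
    ‖term ω a z k‖ ≤
      (ω 0 + L ω ‖a‖) * ((1 + (‖a‖ ^ 2)⁻¹) * B) / ω (y + 1) * (1 / 2) ^ k := by
  have hr : 0 < ‖a‖ := norm_pos_iff.2 ha
  set r := ‖a‖ with hrdef
  have hD := Delta_pos h k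
  have hI := I_nonneg h k r
  have hJ := J_nonneg h k hr
  have hL := L_pos h hr
  have hw0 := h.pos 0 le_rfl
  have hwy := h.pos (y + 1) (by linarith)
  have h1 : ‖term ω a z k‖ ≤ ((r⁻¹) ^ (k + 1) * I ω (k + 1) r + (r⁻¹) ^ (k + 1) * J ω (k + 1) r) *
      (‖z‖ ^ (k + 1) / Delta ω (k + 1)) := by
    unfold term
    rw [norm_mul, norm_div, norm_pow, Complex.norm_real, Real.norm_eq_abs, abs_of_pos hD]
    gcongr
    refine (norm_sub_le _ _).trans ?_
    rw [norm_mul, norm_mul, norm_pow, norm_pow, norm_inv, norm_inv, Complex.norm_conj,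
      Complex.norm_real, Complex.norm_real, Real.norm_eq_abs, Real.norm_eq_abs, abs_of_nonneg hI,
      abs_of_nonneg hJ]
  refine h1.trans ?_
  have h2 : (r⁻¹) ^ (k + 1) * I ω (k + 1) r ≤ ω 0 := by
    have := I_le h k hr.le
    calc (r⁻¹) ^ (k + 1) * I ω (k + 1) r ≤ (r⁻¹) ^ (k + 1) * (ω 0 * r ^ (k + 1)) := by gcongr
      _ = ω 0 := by
        rw [inv_pow]
        field_simp
  have h3 : (r⁻¹) ^ (k + 1) * J ω (k + 1) r ≤ L ω r * ((r ^ 2)⁻¹) ^ (k + 1) := by
    have := J_le_L h k hr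
    calc (r⁻¹) ^ (k + 1) * J ω (k + 1) r ≤ (r⁻¹) ^ (k + 1) * (L ω r / r ^ (k + 1)) := by gcongr
      _ = L ω r * ((r ^ 2)⁻¹) ^ (k + 1) := by
        rw [inv_pow, inv_pow]
        field_simp
        ring
  set q := 1 + (r ^ 2)⁻¹ with hq
  have hq1 : 1 ≤ q := by
    rw [hq]
    have : 0 ≤ (r ^ 2)⁻¹ := by positivity
    linarith
  have h4 : (r⁻¹) ^ (k + 1) * I ω (k + 1) r + (r⁻¹) ^ (k + 1) * J ω (k + 1) r ≤
      (ω 0 + L ω r) * q ^ (k + 1) := by
    have e1 : ω 0 ≤ ω 0 * q ^ (k + 1) := le_mul_of_one_le_right hw0.le (one_le_pow₀ hq1)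
    have e2 : L ω r * ((r ^ 2)⁻¹) ^ (k + 1) ≤ L ω r * q ^ (k + 1) := by
      gcongr
      rw [hq]
      linarith
    linarith
  have h5 : ω (y + 1) * y ^ k ≤ Delta ω (k + 1) := (T_ge h k hy0.le).trans (Delta_ge h k hy0.le)
  calc ((r⁻¹) ^ (k + 1) * I ω (k + 1) r + (r⁻¹) ^ (k + 1) * J ω (k + 1) r) *
      (‖z‖ ^ (k + 1) / Delta ω (k + 1))
      ≤ ((ω 0 + L ω r) * q ^ (k + 1)) * (B ^ (k + 1) / (ω (y + 1) * y ^ k)) := by gcongr
    _ = (ω 0 + L ω r) * (q * B) / ω (y + 1) * ((q * B) / y) ^ k := by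
      rw [div_pow, mul_pow, pow_succ, pow_succ]
      field_simp
    _ ≤ (ω 0 + L ω r) * (q * B) / ω (y + 1) * (1 / 2) ^ k := by
      have hqy : q * B / y ≤ 1 / 2 := by
        rw [div_le_iff₀ hy0]
        linarith
      have hqB : 0 ≤ q * B / y := by positivity
      exact mul_le_mul_of_nonneg_left (pow_le_pow_left₀ hqB hqy k) (by positivity)

lemma continuousOn_W (h : IsWeight ω) {a : ℂ} (ha : a ≠ 0) {B : ℝ} (hB : 0 < B) :
    ContinuousOn (fun z => W ω z a) (Metric.closedBall 0 B) := by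
  unfold W
  apply continuousOn_const.sub
  have hsum : Summable fun k : ℕ => (ω 0 + L ω ‖a‖) * ((1 + (‖a‖ ^ 2)⁻¹) * B) /
      ω ((2 * B * (1 + (‖a‖ ^ 2)⁻¹)) + 1) * (1 / 2) ^ k :=
    (summable_geometric_of_lt_one (by norm_num) (by norm_num)).mul_left _
  apply continuousOn_tsum _ hsum
  · intro k z hz
    have hz' : ‖z‖ ≤ B := by simpa using hz
    exact norm_term_le h ha hB hz' k (by positivity) le_rfl
  · intro k
    fun_prop

lemma est (h : IsWeight ω) {t0 : ℝ} (ht0 : 0 ≤ t0)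
    (hd : ∀ t, t0 < t → DifferentiableAt ℝ ω t)
    (ha : AntitoneOn (fun t => t * deriv ω t / ω t) (Ioi t0))
    {B y : ℝ} (hB : 0 < B) (hy : t0 < y) (hBy : 2 * B ≤ y) {a z : ℂ} (hya : y ≤ ‖a‖)
    (ha1 : 1 ≤ ‖a‖) (hz : ‖z‖ ≤ B) (hsmall : L ω ‖a‖ * (1 + 2 / L ω y) ≤ 1) :
    ‖A ω z a - 1‖ ≤ 2 * (L ω ‖a‖ * (1 + 2 / L ω y)) := by
  have hy0 : 0 < y := ht0.trans_lt hy
  set r := ‖a‖ with hr
  have hr0 : 0 < r := by linarith
  have ha0 : a ≠ 0 := norm_pos_iff.1 (by rw [← hr]; exact hr0)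
  have hLy := L_pos h hy0
  have hLr := L_pos h hr0
  set w := z / a with hw
  have hwn : ‖w‖ ≤ 1 / 2 := by
    rw [hw, norm_div, ← hr, div_le_iff₀ hr0]
    linarith
  have hw1 : ‖w‖ < 1 := by linarith
  have hlog : HasSum (fun k : ℕ => w ^ (k + 1) / ((k:ℂ) + 1)) (-Complex.log (1 - w)) := by
    have := (hasSum_nat_add_iff' 1).2 (Complex.hasSum_taylorSeries_neg_log hw1)
    simpa using this
  set d : ℕ → ℂ := fun k => w ^ (k + 1) / ((k:ℂ) + 1) - term ω a z k with hdd
  have hdn : ∀ k, ‖d k‖ ≤ (1 / 2) ^ k * (L ω r / L ω y) := by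
    intro k
    have hD := Delta_pos h k
    have hDe := Delta_eq h k hr0.le
    have hT := T_pos h k hr0.le
    have hJ := J_nonneg h k hr0
    have hJT := J_le_T h k ha1
    have hk1 : ((k:ℂ) + 1) ≠ 0 := by exact_mod_cast Nat.succ_ne_zero k
    have hDc : (Delta ω (k + 1) : ℂ) ≠ 0 := by exact_mod_cast hD.ne'
    have e1 : d k = z ^ (k + 1) / (Delta ω (k + 1) : ℂ) *
        (a⁻¹ ^ (k + 1) * (T ω k r : ℂ) + (conj a)⁻¹ ^ (k + 1) * (J ω (k + 1) r : ℂ)) := by
      have hDe' : (Delta ω (k + 1) : ℂ) = ((k:ℂ) + 1) * ((I ω (k + 1) r : ℂ) + (T ω k r : ℂ)) := by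
        rw [hDe]
        push_cast
        ring
      have e2 : w ^ (k + 1) / ((k:ℂ) + 1) = z ^ (k + 1) / (Delta ω (k + 1) : ℂ) *
          (a⁻¹ ^ (k + 1) * ((I ω (k + 1) r : ℂ) + (T ω k r : ℂ))) := by
        rw [div_mul_eq_mul_div, div_eq_div_iff hk1 hDc, hDe', hw, div_eq_mul_inv z a, mul_pow]
        ring
      simp only [hdd, term, e2]
      rw [← hr]
      ring
    have e3 : ‖d k‖ ≤ ‖z‖ ^ (k + 1) / Delta ω (k + 1) *
        ((r⁻¹) ^ (k + 1) * T ω k r + (r⁻¹) ^ (k + 1) * J ω (k + 1) r) := by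
      rw [e1, norm_mul, norm_div, norm_pow, Complex.norm_real, Real.norm_eq_abs, abs_of_pos hD]
      gcongr
      refine (norm_add_le _ _).trans ?_
      rw [norm_mul, norm_mul, norm_pow, norm_pow, norm_inv, norm_inv, Complex.norm_conj,
        Complex.norm_real, Complex.norm_real, Real.norm_eq_abs, Real.norm_eq_abs, abs_of_pos hT,
        abs_of_nonneg hJ, ← hr]
    have e4 : (r⁻¹) ^ (k + 1) * T ω k r + (r⁻¹) ^ (k + 1) * J ω (k + 1) r ≤
        2 * (T ω k r / r ^ (k + 1)) := by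
      have : (r⁻¹) ^ (k + 1) * J ω (k + 1) r ≤ (r⁻¹) ^ (k + 1) * T ω k r := by gcongr
      have e5 : (r⁻¹) ^ (k + 1) * T ω k r = T ω k r / r ^ (k + 1) := by
        rw [inv_pow, div_eq_inv_mul]
      linarith
    have e6 : T ω k r / r ^ (k + 1) ≤ T ω k y / y ^ (k + 1) * (L ω r / L ω y) := by
      have := key h ht0 hd ha k hy hya
      rw [← mul_div_assoc, le_div_iff₀ hLy]
      exact this
    have e7 : T ω k y / Delta ω (k + 1) ≤ 1 := by
      rw [div_le_one hD]
      exact Delta_ge h k hy0.le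
    have hTy := T_pos h k hy0.le
    calc ‖d k‖ ≤ B ^ (k + 1) / Delta ω (k + 1) * (2 * (T ω k y / y ^ (k + 1) * (L ω r / L ω y))) := by
          refine e3.trans ?_
          have := e4.trans (mul_le_mul_of_nonneg_left e6 (by norm_num))
          gcongr
      _ = (B / y) ^ (k + 1) * (2 * (T ω k y / Delta ω (k + 1)) * (L ω r / L ω y)) := by
          rw [div_pow]
          ring
      _ ≤ (1 / 2) ^ (k + 1) * (2 * 1 * (L ω r / L ω y)) := by
          have : B / y ≤ 1 / 2 := by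
            rw [div_le_iff₀ hy0]
            linarith
          have hp := pow_le_pow_left₀ (by positivity) this (k + 1)
          have hq : 2 * (T ω k y / Delta ω (k + 1)) * (L ω r / L ω y) ≤
              2 * 1 * (L ω r / L ω y) := by gcongr
          exact mul_le_mul hp hq (by positivity) (by positivity)
      _ = (1 / 2) ^ k * (L ω r / L ω y) := by
          rw [pow_succ]
          ring
  have hgeo : HasSum (fun k : ℕ => ((1:ℝ) / 2) ^ k * (L ω r / L ω y)) (2 * (L ω r / L ω y)) :=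
    hasSum_geometric_two.mul_right _
  have hds : Summable d := Summable.of_norm_bounded hgeo.summable hdn
  have hts : Summable (term ω a z) := by
    have : term ω a z = fun k : ℕ => w ^ (k + 1) / ((k:ℂ) + 1) - d k := by
      funext k
      simp only [hdd]
      ring
    rw [this]
    exact hlog.summable.sub hds
  have hW : W ω z a = (L ω r : ℂ) - ∑' k, term ω a z k := by
    rfl
  have hE : Complex.log (1 - w) - W ω z a = -(L ω r : ℂ) - ∑' k, d k := by
    have : ∑' k, d k = -Complex.log (1 - w) - ∑' k, term ω a z k := by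
      simp only [hdd]
      rw [hlog.summable.tsum_sub hts, hlog.tsum_eq]
    rw [this, hW]
    ring
  have hne : (1 - w) ≠ 0 := by
    intro h0
    have : w = 1 := by linear_combination -h0
    rw [this] at hw1
    simp at hw1
  have hA : A ω z a = Complex.exp (-(L ω r : ℂ) - ∑' k, d k) := by
    rw [← hE, sub_eq_add_neg, Complex.exp_add, Complex.exp_log hne]
    rfl
  have hn : ‖-(L ω r : ℂ) - ∑' k, d k‖ ≤ L ω r * (1 + 2 / L ω y) := by
    have h1 : ‖∑' k, d k‖ ≤ 2 * (L ω r / L ω y) := tsum_of_norm_bounded hgeo hdn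
    have h2 : ‖-(L ω r : ℂ)‖ = L ω r := by
      rw [norm_neg, Complex.norm_real, Real.norm_eq_abs, abs_of_pos hLr]
    calc ‖-(L ω r : ℂ) - ∑' k, d k‖ ≤ ‖-(L ω r : ℂ)‖ + ‖∑' k, d k‖ := norm_sub_le _ _
      _ ≤ L ω r + 2 * (L ω r / L ω y) := by rw [h2]; gcongr
      _ = _ := by ring
  rw [hA]
  exact (Complex.norm_exp_sub_one_le (hn.trans hsmall)).trans (by gcongr)

/-- **Main theorem.** If `ω` satisfies (**) then for every sequence with `∑ L(|z_k|) < ∞` the
product `∏ A_ω(z; z_k)` converges absolutely and uniformly, to a nonvanishing limit, on every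
compact set containing no `z_k`. -/
theorem result (ω : ℝ → ℝ) (h : IsWeight ω) (hreg : Regular ω) (z : ℕ → ℂ)
    (hz0 : ∀ k, z k ≠ 0) (_hmono : ∀ k, ‖z k‖ ≤ ‖z (k + 1)‖)
    (hsum : Summable fun k => L ω ‖z k‖) (K : Set ℂ) (hK : IsCompact K) (hKz : ∀ k, z k ∉ K) :
    (∃ M : ℕ → ℝ, Summable M ∧ ∀ᶠ k in atTop, ∀ w ∈ K, ‖A ω w (z k) - 1‖ ≤ M k) ∧
    ∃ p : ℂ → ℂ, (∀ w ∈ K, p w ≠ 0) ∧
      TendstoUniformlyOn (fun (N : ℕ) (w : ℂ) => ∏ k ∈ Finset.range N, A ω w (z k)) p atTop K := by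
  obtain ⟨t0, ht0, hd, ha, -⟩ := hreg
  obtain ⟨B0, hB0⟩ := hK.isBounded.exists_norm_le
  set B := max B0 1 with hBdef
  have hB : 0 < B := lt_of_lt_of_le one_pos (le_max_right _ _)
  have hKB : ∀ w ∈ K, ‖w‖ ≤ B := fun w hw => (hB0 w hw).trans (le_max_left _ _)
  set y := max (2 * B) (t0 + 1) with hydef
  have hyt : t0 < y := lt_of_lt_of_le (by linarith) (le_max_right _ _)
  have hyB : 2 * B ≤ y := le_max_left _ _
  have hy0 : 0 < y := ht0.trans_lt hyt
  set Y := max y 1 with hY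
  have hY0 : 0 < Y := lt_of_lt_of_le one_pos (le_max_right _ _)
  have hLt := hsum.tendsto_atTop_zero
  have hev1 : ∀ᶠ k in atTop, L ω ‖z k‖ < L ω Y := hLt.eventually_lt_const (L_pos h hY0)
  have hCpos : 0 < 1 + 2 / L ω y := by
    have := L_pos h hy0
    positivity
  have hev2 : ∀ᶠ k in atTop, L ω ‖z k‖ < (1 + 2 / L ω y)⁻¹ :=
    hLt.eventually_lt_const (inv_pos.2 hCpos)
  have hbound : ∀ᶠ k in atTop, ∀ w ∈ K,
      ‖A ω w (z k) - 1‖ ≤ 2 * (L ω ‖z k‖ * (1 + 2 / L ω y)) := by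
    filter_upwards [hev1, hev2] with k hk1 hk2 w hw
    have hzk : Y < ‖z k‖ := by
      by_contra hcon
      push Not at hcon
      have := L_anti h (norm_pos_iff.2 (hz0 k)) hcon
      linarith
    refine est h ht0 hd ha hB hyt hyB ((le_max_left _ _).trans hzk.le)
      ((le_max_right _ _).trans hzk.le) (hKB w hw) ?_
    have := mul_lt_mul_of_pos_right hk2 hCpos
    rw [inv_mul_cancel₀ hCpos.ne'] at this
    exact this.le
  have hMs : Summable fun k => 2 * (L ω ‖z k‖ * (1 + 2 / L ω y)) :=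
    (hsum.mul_right _).mul_left _
  refine ⟨⟨_, hMs, hbound⟩, ?_⟩
  have hcts : ∀ n, ContinuousOn (fun w => A ω w (z n) - 1) K := by
    intro n
    have h1 : ContinuousOn (fun w => W ω w (z n)) K :=
      (continuousOn_W h (hz0 n) hB).mono fun w hw => by simpa using hKB w hw
    unfold A
    exact ((continuousOn_const.sub (continuousOn_id.div_const _)).mul h1.neg.cexp).sub
      continuousOn_const
  have hprod := Summable.hasProdUniformlyOn_nat_one_add (f := fun n w => A ω w (z n) - 1) hK hMs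
    hbound hcts
  refine ⟨fun w => ∏' i, (1 + (A ω w (z i) - 1)), ?_, ?_⟩
  · intro w hw
    apply tprod_one_add_ne_zero_of_summable
    · intro i
      rw [add_sub_cancel]
      unfold A
      refine mul_ne_zero ?_ (Complex.exp_ne_zero _)
      intro h0
      have h1 : w / z i = 1 := by linear_combination -h0
      rw [div_eq_one_iff_eq (hz0 i)] at h1
      exact hKz i (h1 ▸ hw)
    · refine Summable.of_norm_bounded_eventually_nat hMs ?_
      filter_upwards [hbound] with k hk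
      rw [norm_norm]
      exact hk w hw
  · have := hprod.tendstoUniformlyOn_finsetRange
    simpa using this

end Pool.Agent.Results.MP_d393fc_an.ProductConverges
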